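import Pool.Agent.H77.TP.Par

/-!
# Sums of `θ`-powers near integers: how badly the divergence case fails

For `k = 1` and `θ < 1` the sum `∑ ρ (m) / m` may diverge although for almost all `θ` the inequality
`|a ^ θ - b| ≤ ρ (a) / a` has only finitely many solutions. We determine how large the divergent sum can be made.

(1) For all `0 < θ₀ < 1` and `0 ≤ κ < 1 - θ₀` there is `ρ` with `∑ ρ (m) / m = ∞` and
`∑_{m ≤ M} ρ (m) / m ≥ M ^ κ / 4` for all `M ≥ 2` such that the exponents `θ ≤ θ₀` with infinitely many solutions form a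
set of Hausdorff dimension at most `2 θ₀ / (1 + θ₀ - κ) < 1`.

(2) Let `0 < Θ ≤ 1`. For every function `ψ` with `ψ (M) ≤ M ^ (1 - Θ + ε)` for all `ε > 0` and all large `M` there is
`ρ` with `∑_{m ≤ M} ρ (m) / m ≥ ψ (M)` for all large `M` such that for almost all `θ` in `(0, Θ)` there are only finitely
many solutions.

(3) The divergence statement is false (k = 1).

Proof. `ρ (m) / m` is `δ_i` for `2 ^ i ≤ m < 2 ^ i + L_i` and zero elsewhere. On this interval `m ^ θ` varies by at most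
`L_i 2 ^ (i (θ₀ - 1))`, so that a solution makes the distance of `2 ^ (i θ)` from the integers at most
`η_i = δ_i + L_i 2 ^ (i (θ₀ - 1))`. The exponents with this property are covered by `2 ^ (i θ₀ + 1)` intervals of length
`4 η_i / (b i log 2)`, `b ≥ 1`.
-/

set_option autoImplicit false

open MeasureTheory Filter
open scoped ENNReal

namespace Pool.Agent.Results.MP_33ac70_nt.LargePartialSums

/-- The solutions `(a_1, …, a_k, b)`, natural numbers `≥ 1`, of `|∑ a_j ^ θ - b| ≤ ρ (max a_j) / (max a_j) ^ k`. -/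
def Solutions (k : ℕ) (ρ : ℕ → ℝ) (θ : ℝ) : Set ((Fin k → ℕ) × ℕ) :=
  {p | (∀ j, 1 ≤ p.1 j) ∧ 1 ≤ p.2 ∧
    |∑ j, (p.1 j : ℝ) ^ θ - p.2| ≤ ρ (Finset.univ.sup p.1) / ((Finset.univ.sup p.1 : ℕ) : ℝ) ^ k}

theorem finite_of_pairs {ρ : ℕ → ℝ} {θ : ℝ} (h : (Pool.Agent.H77.TP.Sol ρ θ).Finite) :
    (Solutions 1 ρ θ).Finite := by
  have hinj : Function.Injective (fun p : (Fin 1 → ℕ) × ℕ => (p.1 0, p.2)) := by
    rintro ⟨a, b⟩ ⟨a', b'⟩ h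
    simp only [Prod.mk.injEq] at h
    refine Prod.ext ?_ h.2
    funext j
    rw [Subsingleton.elim j 0]
    exact h.1
  refine (h.preimage hinj.injOn).subset ?_
  rintro ⟨a, b⟩ ⟨h1, h2, h3⟩
  have hsup : Finset.univ.sup a = a 0 := by
    rw [Finset.univ_unique, Finset.sup_singleton, Fin.default_eq_zero]
  rw [hsup, pow_one, Fin.sum_univ_one] at h3
  exact ⟨h1 0, h2, h3⟩

/-- **Large partial sums and only finitely many solutions.** -/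
theorem result :
    (∀ θ₀ κ : ℝ, 0 < θ₀ → 0 ≤ κ → κ < 1 - θ₀ → ∃ ρ : ℕ → ℝ, (∀ m, 0 ≤ ρ m) ∧
      ¬ Summable (fun m : ℕ => ρ m / m) ∧
      (∀ M : ℕ, 2 ≤ M → (M : ℝ) ^ κ / 4 ≤ ∑ m ∈ Finset.Icc 1 M, ρ m / m) ∧
      dimH {θ : ℝ | 0 < θ ∧ θ ≤ θ₀ ∧ (Solutions 1 ρ θ).Infinite} ≤
        ENNReal.ofReal (2 * θ₀ / (1 + θ₀ - κ)) ∧
      2 * θ₀ / (1 + θ₀ - κ) < 1) ∧
    (∀ Θ : ℝ, 0 < Θ → Θ ≤ 1 → ∀ ψ : ℕ → ℝ,
      (∀ ε : ℝ, 0 < ε → ∀ᶠ M : ℕ in atTop, ψ M ≤ (M : ℝ) ^ (1 - Θ + ε)) →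
      ∃ ρ : ℕ → ℝ, (∀ m, 0 ≤ ρ m) ∧
        (∀ᶠ M : ℕ in atTop, ψ M ≤ ∑ m ∈ Finset.Icc 1 M, ρ m / m) ∧
        ∀ᵐ θ : ℝ, 0 < θ → θ < Θ → (Solutions 1 ρ θ).Finite) ∧
    ¬ (∀ k : ℕ, 1 ≤ k → ∀ ρ : ℕ → ℝ, (∀ m, 0 ≤ ρ m) → ¬ Summable (fun m : ℕ => ρ m / m) →
        ∀ᵐ θ : ℝ, 0 < θ → (Solutions k ρ θ).Infinite) := by
  refine ⟨fun θ₀ κ h0 hκ h1 => ?_, fun Θ hΘ0 hΘ1 ψ hψ => ?_, fun hall => ?_⟩
  · obtain ⟨ρ, h2, h3, h4, h5⟩ := Pool.Agent.H77.TP.dim_part h0 hκ h1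
    refine ⟨ρ, h2, h3, h4, (dimH_mono ?_).trans h5, ?_⟩
    · rintro θ ⟨h6, h7, h8⟩
      exact ⟨h6, h7, fun h9 => h8 (finite_of_pairs h9)⟩
    · rw [div_lt_one (by linarith)]
      linarith
  · obtain ⟨ρ, h2, h3, h4⟩ := Pool.Agent.H77.TP.ae_part hΘ0 hΘ1 hψ
    refine ⟨ρ, h2, h3, ?_⟩
    filter_upwards [h4] with θ h5 h6 h7
    exact finite_of_pairs (h5 h6 h7)
  · obtain ⟨ρ, h2, h3, h4, h5⟩ := Pool.Agent.H77.TP.dim_part (θ0 := 1 / 2) (κ := 0) (by norm_num)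
      le_rfl (by norm_num)
    have h6 := hall 1 le_rfl ρ h2 h3
    have h7 : μH[1] {θ : ℝ | 0 < θ ∧ θ ≤ 1 / 2 ∧ (Pool.Agent.H77.TP.Sol ρ θ).Infinite} = 0 := by
      have h8 : dimH {θ : ℝ | 0 < θ ∧ θ ≤ 1 / 2 ∧ (Pool.Agent.H77.TP.Sol ρ θ).Infinite} <
          ((1 : NNReal) : ENNReal) := by
        refine h5.trans_lt ?_
        rw [ENNReal.coe_one, ← ENNReal.ofReal_one]
        exact (ENNReal.ofReal_lt_ofReal_iff one_pos).2 (by norm_num)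
      have := hausdorffMeasure_of_dimH_lt h8
      simpa using this
    rw [hausdorffMeasure_real] at h7
    have h8 : ∀ᵐ θ : ℝ, θ ∉ Set.Ioo (0 : ℝ) (1 / 2) := by
      filter_upwards [h6, measure_eq_zero_iff_ae_notMem.1 h7] with θ h9 h10 h11
      exact h10 ⟨h11.1, h11.2.le, fun h12 => h9 h11.1 (finite_of_pairs h12)⟩
    have h9 := measure_eq_zero_iff_ae_notMem.2 h8
    rw [Real.volume_Ioo] at h9
    norm_num at h9

end Pool.Agent.Results.MP_33ac70_nt.LargePartialSums
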